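import Pool.Agent.Lib_helper48.MR.Gr

/-! The Casimir operator in homogeneous coordinates. -/

set_option autoImplicit false

namespace Pool.Agent.MR

open Module Pool.Agent.RM

attribute [local instance 100] LieRing.ofAssociativeRing

variable {K : Type*} [Field K] [CharZero K] [IsAlgClosed K]
variable {V : Type*} [AddCommGroup V] [Module K V] [FiniteDimensional K V]

omit [CharZero K] in
/-- An operator commuting with an irreducible set of operators is a scalar. -/
theorem schur_set [Nontrivial V] {L : Set (Module.End K V)}
    (hirr : ∀ W : Submodule K V, (∀ x ∈ L, ∀ v ∈ W, x v ∈ W) → W = ⊥ ∨ W = ⊤)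
    {C : Module.End K V} (hC : ∀ x ∈ L, ∀ v, C (x v) = x (C v)) : ∃ κ : K, ∀ v, C v = κ • v := by
  obtain ⟨κ, hκ⟩ := Module.End.exists_eigenvalue C
  refine ⟨κ, ?_⟩
  have h := hirr (Module.End.eigenspace C κ) (by
    intro x hx v hv
    rw [Module.End.mem_eigenspace_iff] at hv ⊢
    rw [hC x hx, hv, map_smul])
  rcases h with h | h
  · exact absurd h hκ
  · intro v
    have h1 : v ∈ Module.End.eigenspace C κ := by rw [h]; exact Submodule.mem_top
    exact Module.End.mem_eigenspace_iff.mp h1

omit [CharZero K] [IsAlgClosed K] [FiniteDimensional K V] in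
/-- The trace is invariant under conjugation. -/
theorem trace_conj_mul (s : V ≃ₗ[K] V) (x y : Module.End K V) :
    LinearMap.trace K V (s.conj x * s.conj y) = LinearMap.trace K V (x * y) := by
  have h1 : s.conj x * s.conj y = s.conj (x * y) := by
    ext v
    simp [LinearEquiv.conj_apply_apply]
  rw [h1, LinearMap.trace_conj']

/-- The Casimir operator, in homogeneous dual bases, is a nonzero scalar. -/
theorem cas [Nontrivial V] (L : LieSubalgebra K (Module.End K V))
    (hirr : ∀ W : Submodule K V, (∀ x ∈ L, ∀ v ∈ W, x v ∈ W) → W = ⊥ ∨ W = ⊤)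
    (htr : ∀ x ∈ L, LinearMap.trace K V x = 0) {s : V ≃ₗ[K] V} (hD : Diag (s : Module.End K V))
    (hs : ∀ x ∈ L, s.conj x ∈ L) (hL : L ≠ ⊥) :
    ∃ (n : ℕ) (b b' : Fin n → Module.End K V) (μ : Fin n → K) (κ : K), κ ≠ 0 ∧
      (∀ i, b i ∈ L ∧ b' i ∈ L ∧ μ i ≠ 0 ∧ Hm s (μ i) (b i) ∧ Hm s (μ i)⁻¹ (b' i)) ∧
      ∀ v, ∑ i, b i (b' i v) = κ • v := by
  classical
  obtain ⟨b, μ, hb⟩ := hom_basis hD L.toSubmodule hs
  -- the trace form
  let B : LinearMap.BilinForm K L.toSubmodule := LinearMap.mk₂ K
    (fun x y => LinearMap.trace K V ((x : Module.End K V) * (y : Module.End K V)))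
    (by intro x x' y; rw [Submodule.coe_add, add_mul, map_add])
    (by intro c x y; rw [Submodule.coe_smul, smul_mul_assoc, map_smul])
    (by intro x y y'; rw [Submodule.coe_add, mul_add, map_add])
    (by intro c x y; rw [Submodule.coe_smul, mul_smul_comm, map_smul])
  have hBdef : ∀ x y, B x y = LinearMap.trace K V ((x : Module.End K V) * (y : Module.End K V)) :=
    fun x y => rfl
  have hBsymm : ∀ x y, B x y = B y x := fun x y => by
    rw [hBdef, hBdef, LinearMap.trace_mul_comm]
  have hBnd : B.Nondegenerate := by
    rw [LinearMap.BilinForm.nondegenerate_iff_ker_eq_bot, LinearMap.ker_eq_bot']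
    intro x hx
    apply Subtype.ext
    exact tr_nondeg L hirr htr x.1 x.2 fun y hy => LinearMap.congr_fun hx ⟨y, hy⟩
  let d : Basis (Fin (finrank K L.toSubmodule)) K L.toSubmodule := B.dualBasis hBnd b
  have hdb : ∀ i j, B (d i) (b j) = if j = i then 1 else 0 := fun i j =>
    LinearMap.BilinForm.apply_dualBasis_left hBnd b i j
  have hbd : ∀ i j, B (b i) (d j) = if i = j then 1 else 0 := fun i j => by
    rw [hBsymm, hdb]
  have hμ : ∀ i, μ i ≠ 0 := fun i => (hb i).ne fun h => b.ne_zero i (Subtype.ext h)
  -- expansions
  have hexp : ∀ x : L.toSubmodule, x = ∑ j, B x (d j) • b j := by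
    intro x
    have h1 : ∀ j, b.repr x j = B x (d j) := by
      intro j
      conv_rhs => rw [← b.sum_repr x]
      rw [map_sum, LinearMap.sum_apply, Finset.sum_eq_single j]
      · rw [map_smul, LinearMap.smul_apply, hbd, if_pos rfl, smul_eq_mul, mul_one]
      · intro i _ hi
        rw [map_smul, LinearMap.smul_apply, hbd, if_neg hi, smul_zero]
      · intro h
        exact absurd (Finset.mem_univ j) h
    conv_lhs => rw [← b.sum_repr x]
    exact Finset.sum_congr rfl fun j _ => by rw [h1]
  have hexp' : ∀ x : L.toSubmodule, x = ∑ j, B x (b j) • d j := by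
    intro x
    have h1 : ∀ j, d.repr x j = B x (b j) := by
      intro j
      conv_rhs => rw [← d.sum_repr x]
      rw [map_sum, LinearMap.sum_apply, Finset.sum_eq_single j]
      · rw [map_smul, LinearMap.smul_apply, hdb, if_pos rfl, smul_eq_mul, mul_one]
      · intro i _ hi
        rw [map_smul, LinearMap.smul_apply, hdb, if_neg (Ne.symm hi), smul_zero]
      · intro h
        exact absurd (Finset.mem_univ j) h
    conv_lhs => rw [← d.sum_repr x]
    exact Finset.sum_congr rfl fun j _ => by rw [h1]
  -- homogeneity of the dual basis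
  have hdh : ∀ i, Hm s (μ i)⁻¹ (d i : Module.End K V) := by
    intro i
    rw [hm_iff]
    have h1 : (⟨s.conj (d i : Module.End K V), hs _ (d i).2⟩ : L.toSubmodule) = (μ i)⁻¹ • d i := by
      rw [hexp' ⟨s.conj (d i : Module.End K V), hs _ (d i).2⟩, Finset.sum_eq_single i]
      · congr 1
        rw [hBdef]
        have h2 : (b i : Module.End K V) = (μ i)⁻¹ • s.conj (b i : Module.End K V) := by
          rw [hm_iff.mp (hb i), smul_smul, inv_mul_cancel₀ (hμ i), one_smul]
        rw [h2, mul_smul_comm, map_smul]
        rw [trace_conj_mul, ← hBdef, hdb, if_pos rfl, smul_eq_mul, mul_one]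
      · intro j _ hj
        have h2 : (b j : Module.End K V) = (μ j)⁻¹ • s.conj (b j : Module.End K V) := by
          rw [hm_iff.mp (hb j), smul_smul, inv_mul_cancel₀ (hμ j), one_smul]
        rw [hBdef, h2, mul_smul_comm, map_smul]
        rw [trace_conj_mul, ← hBdef, hdb, if_neg hj, smul_zero, zero_smul]
      · intro h
        exact absurd (Finset.mem_univ i) h
    exact congrArg Subtype.val h1
  -- the Casimir operator commutes with L
  let C : Module.End K V := ∑ i, (b i : Module.End K V) * (d i : Module.End K V)
  have hCx : ∀ x ∈ L, x * C = C * x := by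
    intro x hx
    let a : Fin (finrank K L.toSubmodule) → Fin (finrank K L.toSubmodule) → K := fun i j =>
      LinearMap.trace K V ((x * b i - b i * x) * d j)
    have h1 : ∀ i, x * (b i : Module.End K V) - b i * x = ∑ j, a i j • (b j : Module.End K V) := by
      intro i
      have h2 := congrArg Subtype.val (hexp ⟨x * b i - b i * x, L.lie_mem hx (b i).2⟩)
      simp only [Submodule.coe_sum, Submodule.coe_smul] at h2
      exact h2
    have h2 : ∀ j, x * (d j : Module.End K V) - d j * x =
        ∑ i, (-(a i j)) • (d i : Module.End K V) := by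
      intro j
      have h3 := congrArg Subtype.val (hexp' ⟨x * d j - d j * x, L.lie_mem hx (d j).2⟩)
      simp only [Submodule.coe_sum, Submodule.coe_smul] at h3
      refine h3.trans (Finset.sum_congr rfl fun i _ => ?_)
      congr 1
      rw [hBdef]
      show LinearMap.trace K V ((x * d j - d j * x) * b i) =
        -LinearMap.trace K V ((x * b i - b i * x) * d j)
      rw [sub_mul, sub_mul, map_sub, map_sub]
      have h4 : LinearMap.trace K V (x * (d j : Module.End K V) * b i) =
          LinearMap.trace K V ((b i : Module.End K V) * x * d j) := by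
        rw [LinearMap.trace_mul_comm, mul_assoc]
      have h5 : LinearMap.trace K V ((d j : Module.End K V) * x * b i) =
          LinearMap.trace K V (x * (b i : Module.End K V) * d j) := by
        rw [mul_assoc, LinearMap.trace_mul_comm]
      rw [h4, h5]
      ring
    have h3 : x * C - C * x = ∑ i, ((x * (b i : Module.End K V) - b i * x) * d i +
        (b i : Module.End K V) * (x * d i - d i * x)) := by
      show x * (∑ i, (b i : Module.End K V) * (d i : Module.End K V)) -
        (∑ i, (b i : Module.End K V) * (d i : Module.End K V)) * x = _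
      rw [Finset.mul_sum, Finset.sum_mul, ← Finset.sum_sub_distrib]
      refine Finset.sum_congr rfl fun i _ => ?_
      noncomm_ring
    have h4 : x * C - C * x = 0 := by
      rw [h3, Finset.sum_add_distrib]
      have h5 : ∑ i, (x * (b i : Module.End K V) - b i * x) * (d i : Module.End K V) =
          ∑ i, ∑ j, a i j • ((b j : Module.End K V) * (d i : Module.End K V)) := by
        refine Finset.sum_congr rfl fun i _ => ?_
        rw [h1, Finset.sum_mul]
        exact Finset.sum_congr rfl fun j _ => by rw [smul_mul_assoc]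
      have h6 : ∑ i, (b i : Module.End K V) * (x * (d i : Module.End K V) - d i * x) =
          ∑ i, ∑ j, (-(a j i)) • ((b i : Module.End K V) * (d j : Module.End K V)) := by
        refine Finset.sum_congr rfl fun i _ => ?_
        rw [h2, Finset.mul_sum]
        exact Finset.sum_congr rfl fun j _ => by rw [mul_smul_comm]
      rw [h5, h6, Finset.sum_comm, ← Finset.sum_add_distrib]
      refine Finset.sum_eq_zero fun i _ => ?_
      rw [← Finset.sum_add_distrib]
      refine Finset.sum_eq_zero fun j _ => ?_
      rw [neg_smul, add_neg_cancel]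
    exact sub_eq_zero.mp h4
  obtain ⟨κ, hκ⟩ := schur_set (L := (L : Set (Module.End K V))) hirr (C := C) (by
    intro x hx v
    exact (LinearMap.congr_fun (hCx x hx) v).symm)
  -- the trace
  have htrC : LinearMap.trace K V C = (finrank K L.toSubmodule : K) := by
    show LinearMap.trace K V (∑ i, (b i : Module.End K V) * (d i : Module.End K V)) = _
    rw [map_sum]
    have h1 : ∀ i, LinearMap.trace K V ((b i : Module.End K V) * (d i : Module.End K V)) = 1 := by
      intro i
      rw [← hBdef, hbd, if_pos rfl]
    rw [Finset.sum_congr rfl fun i _ => h1 i]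
    simp
  have hκ0 : κ ≠ 0 := by
    rintro rfl
    have h1 : C = 0 := by
      ext v
      rw [hκ, zero_smul, LinearMap.zero_apply]
    rw [h1, map_zero] at htrC
    have h2 : finrank K L.toSubmodule = 0 := by
      exact_mod_cast htrC.symm
    apply hL
    have h3 : L.toSubmodule = ⊥ := Submodule.finrank_eq_zero.mp h2
    rw [LieSubalgebra.eq_bot_iff]
    intro x hx
    have h4 : x ∈ L.toSubmodule := hx
    rw [h3] at h4
    exact (Submodule.mem_bot K).mp h4
  refine ⟨finrank K L.toSubmodule, fun i => (b i : Module.End K V), fun i => (d i : Module.End K V),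
    μ, κ, hκ0, fun i => ⟨(b i).2, (d i).2, hμ i, hb i, hdh i⟩, fun v => ?_⟩
  rw [← hκ v]
  show _ = (∑ i, (b i : Module.End K V) * (d i : Module.End K V)) v
  rw [LinearMap.sum_apply]
  rfl

end Pool.Agent.MR
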